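import Pool.Agent.N699.PC.Stm

/-! Project Q3 (helper699), leaf JAC (helper505): finite form of Jacobi's triple product. -/

set_option autoImplicit false

namespace Pool.Agent.N505.Q3

open Finset PowerSeries Pool.Agent.N699.PC

theorem ee_succ (n : ℕ) : ee (n + 1) = ee n * (1 - X ^ (2 * n + 2)) := by
  unfold ee
  rw [Finset.prod_range_succ]

theorem ee_iv (n : ℕ) : ee n * iv (ee n) = 1 := by
  unfold iv
  refine mul_invOfUnit _ _ ?_
  unfold ee
  rw [map_prod, Units.val_one]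
  refine Finset.prod_eq_one fun i _ => ?_
  rw [map_sub, map_one, map_pow, constantCoeff_X, zero_pow (by omega), sub_zero]

/-- the Gaussian binomial coefficients -/
noncomputable def g : ℕ → ℕ → ℤ⟦X⟧
  | _, 0 => 1
  | 0, _ + 1 => 0
  | n + 1, j + 1 => g n (j + 1) + X ^ (2 * (n - j)) * g n j

theorem g_zero (n : ℕ) : g n 0 = 1 := by
  cases n <;> simp [g]

theorem g_succ (n j : ℕ) : g (n + 1) (j + 1) = g n (j + 1) + X ^ (2 * (n - j)) * g n j := by
  simp [g]

theorem g_big : ∀ n j : ℕ, n < j → g n j = 0 := by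
  intro n
  induction n with
  | zero =>
    intro j hj
    obtain ⟨i, rfl⟩ : ∃ i, j = i + 1 := ⟨j - 1, by omega⟩
    simp [g]
  | succ n ih =>
    intro j hj
    obtain ⟨i, rfl⟩ : ∃ i, j = i + 1 := ⟨j - 1, by omega⟩
    rw [g_succ, ih (i + 1) (by omega), ih i (by omega), mul_zero, add_zero]

theorem g_ee : ∀ n j : ℕ, j ≤ n → g n j * (ee j * ee (n - j)) = ee n := by
  intro n
  induction n with
  | zero =>
    intro j hj
    obtain rfl : j = 0 := by omega
    simp [g_zero, ee]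
  | succ n ih =>
    intro j hj
    rcases Nat.eq_zero_or_pos j with rfl | hj0
    · simp [g_zero, ee]
    · obtain ⟨i, rfl⟩ : ∃ i, j = i + 1 := ⟨j - 1, by omega⟩
      have h1 := ih i (by omega)
      have hsub : n + 1 - (i + 1) = n - i := by omega
      rw [g_succ, hsub, add_mul]
      rcases Nat.lt_or_ge i n with hin | hin
      · have h2 := ih (i + 1) hin
        obtain ⟨u, hu⟩ : ∃ u, n - i = u + 1 := ⟨n - i - 1, by omega⟩
        have hu' : n - (i + 1) = u := by omega
        have hn : n = u + 1 + i := by omega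
        rw [hu'] at h2
        rw [hu] at h1 ⊢
        have e1 : g n (i + 1) * (ee (i + 1) * ee (u + 1)) = ee n * (1 - X ^ (2 * u + 2)) := by
          rw [ee_succ u, ← h2]; ring
        have e2 : X ^ (2 * (u + 1)) * g n i * (ee (i + 1) * ee (u + 1)) =
            X ^ (2 * (u + 1)) * (ee n * (1 - X ^ (2 * i + 2))) := by
          rw [ee_succ i, ← h1]; ring
        rw [e1, e2, ee_succ n]
        have e3 : 2 * n + 2 = 2 * (u + 1) + (2 * i + 2) := by omega
        have e4 : 2 * u + 2 = 2 * (u + 1) := by ring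
        rw [e3, e4, pow_add X (2 * (u + 1)) (2 * i + 2)]
        ring
      · obtain rfl : i = n := by omega
        rw [g_big i (i + 1) (by omega), zero_mul, zero_add, Nat.sub_self, mul_zero, pow_zero,
          one_mul]
        rw [Nat.sub_self] at h1
        rw [ee_succ i]
        calc g i i * (ee i * (1 - X ^ (2 * i + 2)) * ee 0) =
            (g i i * (ee i * ee 0)) * (1 - X ^ (2 * i + 2)) := by ring
          _ = _ := by rw [h1]

theorem g_eq (n j : ℕ) (hj : j ≤ n) : g n j = ee n * iv (ee j) * iv (ee (n - j)) := by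
  have h1 := g_ee n j hj
  have h2 := ee_iv j
  have h3 := ee_iv (n - j)
  calc g n j = g n j * (ee j * iv (ee j)) * (ee (n - j) * iv (ee (n - j))) := by
        rw [h2, h3, mul_one, mul_one]
    _ = (g n j * (ee j * ee (n - j))) * iv (ee j) * iv (ee (n - j)) := by ring
    _ = _ := by rw [h1]

/-- the `q`-binomial theorem -/
theorem qbin (a b : ℤ⟦X⟧) (n : ℕ) : ∏ i ∈ range n, (a + b * X ^ (2 * i)) =
    ∑ j ∈ range (n + 1), X ^ (j * (j - 1)) * g n j * a ^ (n - j) * b ^ j := by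
  induction n with
  | zero => simp [g_zero]
  | succ n ih =>
    rw [Finset.prod_range_succ, ih, mul_add]
    have e1 : (∑ j ∈ range (n + 1), X ^ (j * (j - 1)) * g n j * a ^ (n - j) * b ^ j) * a =
        a ^ (n + 1) + ∑ j ∈ range (n + 1), X ^ ((j + 1) * j) * g n (j + 1) * a ^ (n - j) *
          b ^ (j + 1) := by
      rw [Finset.sum_mul, Finset.sum_range_succ', Finset.sum_range_succ _ n, g_big n (n + 1)
        (by omega)]
      simp only [g_zero, mul_zero, zero_mul, add_zero, pow_zero, mul_one, one_mul, Nat.sub_zero]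
      rw [add_comm, ← pow_succ]
      congr 1
      refine Finset.sum_congr rfl fun j hj => ?_
      have hj' := Finset.mem_range.1 hj
      have e2 : n - j = n - (j + 1) + 1 := by omega
      have e3 : (j + 1) * (j + 1 - 1) = (j + 1) * j := by rw [Nat.add_sub_cancel]
      rw [e2, e3, pow_succ a]
      ring
    have e2 : (∑ j ∈ range (n + 1), X ^ (j * (j - 1)) * g n j * a ^ (n - j) * b ^ j) *
        (b * X ^ (2 * n)) = ∑ j ∈ range (n + 1), X ^ ((j + 1) * j) * (X ^ (2 * (n - j)) * g n j) *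
          a ^ (n - j) * b ^ (j + 1) := by
      rw [Finset.sum_mul]
      refine Finset.sum_congr rfl fun j hj => ?_
      have hj' := Finset.mem_range.1 hj
      have e3 : j * (j - 1) + 2 * n = (j + 1) * j + 2 * (n - j) := by
        obtain ⟨u, rfl⟩ : ∃ u, n = j + u := ⟨n - j, by omega⟩
        rw [Nat.add_sub_cancel_left]
        rcases Nat.eq_zero_or_pos j with rfl | hj0
        · simp
        · obtain ⟨i, rfl⟩ : ∃ i, j = i + 1 := ⟨j - 1, by omega⟩
          rw [Nat.add_sub_cancel]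
          ring
      calc X ^ (j * (j - 1)) * g n j * a ^ (n - j) * b ^ j * (b * X ^ (2 * n)) =
          (X ^ (j * (j - 1)) * X ^ (2 * n)) * g n j * a ^ (n - j) * b ^ (j + 1) := by
            rw [pow_succ b]; ring
        _ = _ := by rw [← pow_add, e3, pow_add]; ring
    rw [e1, e2, Finset.sum_range_succ' _ (n + 1)]
    simp only [g_zero, zero_mul, pow_zero, mul_one, one_mul, Nat.sub_zero]
    rw [add_assoc, ← Finset.sum_add_distrib, add_comm]
    congr 1
    refine Finset.sum_congr rfl fun j hj => ?_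
    have e3 : (j + 1) * (j + 1 - 1) = (j + 1) * j := by rw [Nat.add_sub_cancel]
    have e4 : n + 1 - (j + 1) = n - j := by omega
    rw [e3, e4, g_succ]
    ring

theorem split_sum (m : ℕ) (f : ℕ → ℤ⟦X⟧) : ∑ j ∈ range (2 * m + 1), f j =
    f m + ∑ k ∈ range m, (f (m - (k + 1)) + f (m + (k + 1))) := by
  have h : 2 * m + 1 = m + (m + 1) := by ring
  rw [h, Finset.sum_range_add, Finset.sum_range_succ' _ m, ← Finset.sum_range_reflect,
    Finset.sum_add_distrib, add_zero]
  have e : ∀ k ∈ range m, f (m - 1 - k) = f (m - (k + 1)) := by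
    intro k _
    congr 1
    omega
  rw [Finset.sum_congr rfl e]
  ring

theorem t_JAC : Pool.Agent.N699.PC.JAC := by
  intro m
  rcases Nat.eq_zero_or_pos m with rfl | hm
  · have h1 := ee_iv 0
    simp only [oo, Finset.range_zero, Finset.prod_empty, one_pow, zero_add, Finset.range_one,
      Finset.sum_singleton, pow_zero, mul_zero, Nat.sub_zero, mul_one]
    rw [h1]
    have h2 : iv (ee 0) = 1 := by
      have h3 : ee 0 = 1 := by simp [ee]
      rw [h3, one_mul] at h1
      rw [h3]; exact h1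
    rw [h2]
    simp [w]
  obtain ⟨s, rfl⟩ : ∃ s, m = s + 1 := ⟨m - 1, by omega⟩
  have hq := qbin (X ^ (2 * s + 1)) (-1) (2 * (s + 1))
  -- left side
  have hL : ∏ i ∈ range (2 * (s + 1)), ((X : ℤ⟦X⟧) ^ (2 * s + 1) + -1 * X ^ (2 * i)) =
      X ^ ((s + 1) * (3 * s + 1)) * (-1) ^ (s + 1) * oo (s + 1) ^ 2 := by
    have h2 : 2 * (s + 1) = (s + 1) + (s + 1) := by ring
    rw [h2, Finset.prod_range_add]
    have hA : ∏ i ∈ range (s + 1), ((X : ℤ⟦X⟧) ^ (2 * s + 1) + -1 * X ^ (2 * i)) =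
        (-1) ^ (s + 1) * X ^ (s * (s + 1)) * oo (s + 1) := by
      have h3 : ∀ i ∈ range (s + 1), ((X : ℤ⟦X⟧) ^ (2 * s + 1) + -1 * X ^ (2 * i)) =
          (-1 * X ^ (2 * i)) * (1 - X ^ (2 * (s + 1 - 1 - i) + 1)) := by
        intro i hi
        have hi' := Finset.mem_range.1 hi
        have e1 : 2 * s + 1 = 2 * i + (2 * (s + 1 - 1 - i) + 1) := by omega
        conv_lhs => rw [e1, pow_add]
        ring
      rw [Finset.prod_congr rfl h3, Finset.prod_mul_distrib, Finset.prod_mul_distrib,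
        Finset.prod_const, Finset.card_range,
        Finset.prod_range_reflect (fun i => (1 : ℤ⟦X⟧) - X ^ (2 * i + 1)) (s + 1),
        Finset.prod_pow_eq_pow_sum]
      have e2 : ∑ i ∈ range (s + 1), 2 * i = s * (s + 1) := by
        have h4 := Finset.sum_range_id_mul_two (s + 1)
        rw [← Finset.mul_sum, mul_comm, h4, Nat.add_sub_cancel]
        ring
      rw [e2]
      rfl
    have hB : ∏ i ∈ range (s + 1), ((X : ℤ⟦X⟧) ^ (2 * s + 1) + -1 * X ^ (2 * (s + 1 + i))) =
        X ^ ((2 * s + 1) * (s + 1)) * oo (s + 1) := by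
      have h3 : ∀ i ∈ range (s + 1), ((X : ℤ⟦X⟧) ^ (2 * s + 1) + -1 * X ^ (2 * (s + 1 + i))) =
          X ^ (2 * s + 1) * (1 - X ^ (2 * i + 1)) := by
        intro i _
        have e1 : 2 * (s + 1 + i) = (2 * s + 1) + (2 * i + 1) := by ring
        rw [e1, pow_add]
        ring
      rw [Finset.prod_congr rfl h3, Finset.prod_mul_distrib, Finset.prod_const, Finset.card_range,
        ← pow_mul]
      rfl
    rw [hA, hB]
    have e3 : (s + 1) * (3 * s + 1) = s * (s + 1) + (2 * s + 1) * (s + 1) := by ring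
    rw [e3, pow_add]
    ring
  rw [hL, split_sum] at hq
  -- right side
  have hterm1 : ∀ k, k ≤ s + 1 →
      (X : ℤ⟦X⟧) ^ ((s + 1 + k) * (s + 1 + k - 1)) * g (2 * (s + 1)) (s + 1 + k) *
        (X ^ (2 * s + 1)) ^ (2 * (s + 1) - (s + 1 + k)) * (-1) ^ (s + 1 + k) =
      X ^ ((s + 1) * (3 * s + 1)) * (-1) ^ (s + 1) * ((-1) ^ k * X ^ (k ^ 2) *
        (ee (2 * (s + 1)) * iv (ee (s + 1 - k)) * iv (ee (s + 1 + k)))) := by
    intro k hk
    obtain ⟨u, hu⟩ : ∃ u, u + k = s + 1 := ⟨s + 1 - k, by omega⟩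
    have e1 : 2 * (s + 1) - (s + 1 + k) = u := by omega
    have e2 : s + 1 + k - 1 = s + k := by omega
    have e3 : s + 1 - k = u := by omega
    rw [g_eq _ _ (by omega), e1, e2, e3, ← pow_mul]
    have e4 : (s + 1 + k) * (s + k) + (2 * s + 1) * u = (s + 1) * (3 * s + 1) + k ^ 2 := by
      zify
      have hu' : (u : ℤ) = s + 1 - k := by omega
      rw [hu']
      ring
    calc (X : ℤ⟦X⟧) ^ ((s + 1 + k) * (s + k)) * (ee (2 * (s + 1)) * iv (ee (s + 1 + k)) *
          iv (ee u)) * X ^ ((2 * s + 1) * u) * (-1) ^ (s + 1 + k) =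
        X ^ ((s + 1 + k) * (s + k) + (2 * s + 1) * u) * (-1) ^ (s + 1 + k) *
          (ee (2 * (s + 1)) * iv (ee u) * iv (ee (s + 1 + k))) := by rw [pow_add]; ring
      _ = _ := by rw [e4, pow_add, pow_add (-1 : ℤ⟦X⟧)]; ring
  have hterm2 : ∀ k, k ≤ s + 1 →
      (X : ℤ⟦X⟧) ^ ((s + 1 - k) * (s + 1 - k - 1)) * g (2 * (s + 1)) (s + 1 - k) *
        (X ^ (2 * s + 1)) ^ (2 * (s + 1) - (s + 1 - k)) * (-1) ^ (s + 1 - k) =
      X ^ ((s + 1) * (3 * s + 1)) * (-1) ^ (s + 1) * ((-1) ^ k * X ^ (k ^ 2) *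
        (ee (2 * (s + 1)) * iv (ee (s + 1 - k)) * iv (ee (s + 1 + k)))) := by
    intro k hk
    obtain ⟨u, hu⟩ : ∃ u, u + k = s + 1 := ⟨s + 1 - k, by omega⟩
    have e1 : 2 * (s + 1) - (s + 1 - k) = s + 1 + k := by omega
    have e3 : s + 1 - k = u := by omega
    rw [g_eq _ _ (by omega), e1, e3, ← pow_mul]
    have e4 : u * (u - 1) + (2 * s + 1) * (s + 1 + k) = (s + 1) * (3 * s + 1) + k ^ 2 := by
      rcases Nat.eq_zero_or_pos u with rfl | hu0
      · obtain rfl : k = s + 1 := by omega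
        simp
        ring
      · obtain ⟨v, rfl⟩ : ∃ v, u = v + 1 := ⟨u - 1, by omega⟩
        rw [Nat.add_sub_cancel]
        zify
        have hv' : (v : ℤ) = s - k := by omega
        rw [hv']
        ring
    have e5 : (-1 : ℤ⟦X⟧) ^ u = (-1) ^ (s + 1) * (-1) ^ k := by
      rw [← hu, pow_add, mul_assoc, ← pow_add, ← two_mul, pow_mul]
      simp
    calc (X : ℤ⟦X⟧) ^ (u * (u - 1)) * (ee (2 * (s + 1)) * iv (ee u) *
          iv (ee (s + 1 + k))) * X ^ ((2 * s + 1) * (s + 1 + k)) * (-1) ^ u =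
        X ^ (u * (u - 1) + (2 * s + 1) * (s + 1 + k)) * (-1) ^ u *
          (ee (2 * (s + 1)) * iv (ee u) * iv (ee (s + 1 + k))) := by rw [pow_add]; ring
      _ = _ := by rw [e4, e5, pow_add]; ring
  have h0 := hterm1 0 (by omega)
  rw [add_zero] at h0
  rw [h0] at hq
  have hsum : ∀ k ∈ range (s + 1),
      ((X : ℤ⟦X⟧) ^ ((s + 1 - (k + 1)) * (s + 1 - (k + 1) - 1)) *
        g (2 * (s + 1)) (s + 1 - (k + 1)) *
        (X ^ (2 * s + 1)) ^ (2 * (s + 1) - (s + 1 - (k + 1))) * (-1) ^ (s + 1 - (k + 1)) +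
      (X : ℤ⟦X⟧) ^ ((s + 1 + (k + 1)) * (s + 1 + (k + 1) - 1)) *
        g (2 * (s + 1)) (s + 1 + (k + 1)) *
        (X ^ (2 * s + 1)) ^ (2 * (s + 1) - (s + 1 + (k + 1))) * (-1) ^ (s + 1 + (k + 1))) =
      X ^ ((s + 1) * (3 * s + 1)) * (-1) ^ (s + 1) * (2 * ((-1) ^ (k + 1) * X ^ ((k + 1) ^ 2) *
        (ee (2 * (s + 1)) * iv (ee (s + 1 - (k + 1))) * iv (ee (s + 1 + (k + 1)))))) := by
    intro k hk
    have hk' := Finset.mem_range.1 hk
    rw [hterm1 (k + 1) (by omega), hterm2 (k + 1) (by omega)]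
    ring
  rw [Finset.sum_congr rfl hsum, ← Finset.mul_sum, ← mul_add] at hq
  have hne : (X : ℤ⟦X⟧) ^ ((s + 1) * (3 * s + 1)) * (-1) ^ (s + 1) ≠ 0 := by
    refine mul_ne_zero (pow_ne_zero _ X_ne_zero) (pow_ne_zero _ ?_)
    exact neg_ne_zero.2 one_ne_zero
  have hfin := mul_left_cancel₀ hne hq
  rw [hfin, Finset.sum_range_succ' _ (s + 1), add_comm]
  congr 1
  · refine Finset.sum_congr rfl fun k _ => ?_
    have : w (k + 1) = 2 := by simp [w]
    rw [this]
    simp only [map_ofNat]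
    ring
  · simp [w]

end Pool.Agent.N505.Q3
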